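import Pool.Agent.Y377.IL.Stm

/-!
# Fundamental matrices of entire functions
-/

set_option autoImplicit false

namespace Pool.Agent.Y592.IL

/-- All coefficients of all radii are summable. -/
def Ent (c : ℕ → ℂ) : Prop := ∀ ρ : ℝ, 0 < ρ → Summable fun m => ‖c m‖ * ρ ^ m

/-- The function given by the coefficients. -/
noncomputable def ps (c : ℕ → ℂ) (z : ℂ) : ℂ := ∑' m, c m * z ^ m

theorem Ent.norm {c : ℕ → ℂ} (hc : Ent c) (z : ℂ) : Summable fun m => ‖c m * z ^ m‖ := by
  refine Summable.of_nonneg_of_le (fun m => norm_nonneg _) (fun m => ?_)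
    (hc (‖z‖ + 1) (by positivity))
  rw [norm_mul, norm_pow]
  exact mul_le_mul_of_nonneg_left (pow_le_pow_left₀ (norm_nonneg _) (by linarith) _)
    (norm_nonneg _)

theorem Ent.shift {c : ℕ → ℂ} (hc : Ent c) : Ent (fun m => ((m : ℂ) + 1) * c (m + 1)) := by
  intro ρ hρ
  have h := (summable_nat_add_iff 1).2 (hc (2 * ρ) (by positivity))
  refine Summable.of_nonneg_of_le (fun m => by positivity) (fun m => ?_) (h.mul_left (ρ⁻¹))
  have h1 : ‖((m : ℂ) + 1)‖ ≤ 2 ^ (m + 1) := by
    have h2 : ((m : ℂ) + 1) = ((m + 1 : ℕ) : ℂ) := by push_cast; ring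
    rw [h2, Complex.norm_natCast]
    exact_mod_cast (Nat.lt_two_pow_self (n := m + 1)).le
  rw [norm_mul]
  calc ‖(m : ℂ) + 1‖ * ‖c (m + 1)‖ * ρ ^ m ≤ 2 ^ (m + 1) * ‖c (m + 1)‖ * ρ ^ m := by gcongr
    _ = ρ⁻¹ * (‖c (m + 1)‖ * (2 * ρ) ^ (m + 1)) := by
        rw [mul_pow, pow_succ ρ]
        field_simp

theorem Ent.hasDerivAt {c : ℕ → ℂ} (hc : Ent c) (z : ℂ) :
    HasDerivAt (ps c) (ps (fun m => ((m : ℂ) + 1) * c (m + 1)) z) z := by
  set R : ℝ := ‖z‖ + 1 with hR
  have hR0 : 0 < R := by positivity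
  have hu : Summable fun m : ℕ => ‖c m * m‖ * R ^ (m - 1) := by
    rw [← summable_nat_add_iff 1]
    refine (hc.shift R hR0).congr fun m => ?_
    push_cast
    rw [mul_comm ((m : ℂ) + 1)]
  have key := hasDerivAt_tsum_of_isPreconnected (g := fun m w => c m * w ^ m)
    (g' := fun m w => c m * (m * w ^ (m - 1))) (t := Metric.ball (0 : ℂ) R) (y₀ := 0) (y := z)
    hu Metric.isOpen_ball (convex_ball (0 : ℂ) R).isPreconnected
    (fun m w _ => (hasDerivAt_pow m w).const_mul (c m)) (fun m w hw => ?_)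
    (Metric.mem_ball_self hR0) ((hc.norm 0).of_norm) (by simp [hR])
  · have h2 : (∑' m, c m * (m * z ^ (m - 1))) = ps (fun m => ((m : ℂ) + 1) * c (m + 1)) z := by
      have hs : Summable fun m : ℕ => c m * (m * z ^ (m - 1)) := by
        refine Summable.of_norm_bounded hu fun m => ?_
        rw [← mul_assoc, norm_mul, norm_pow]
        gcongr
        linarith
      rw [hs.tsum_eq_zero_add]
      simp only [Nat.cast_zero, zero_mul, mul_zero, zero_add, Nat.add_sub_cancel]
      unfold ps
      refine tsum_congr fun m => ?_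
      push_cast
      ring
    rw [← h2]
    exact key
  · rw [← mul_assoc, norm_mul, norm_pow]
    have : ‖w‖ ≤ R := (mem_ball_zero_iff.1 hw).le
    gcongr

theorem Ent.differentiable {c : ℕ → ℂ} (hc : Ent c) : Differentiable ℂ (ps c) :=
  fun z => (hc.hasDerivAt z).differentiableAt

theorem exists_coeff {f : ℂ → ℂ} (hf : Differentiable ℂ f) : ∃ c, Ent c ∧ ∀ z, f z = ps c z := by
  set c : ℕ → ℂ := fun m => ((m.factorial : ℂ))⁻¹ * iteratedDeriv m f 0 with hc
  have h : ∀ z, HasSum (fun m => c m * z ^ m) (f z) := by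
    intro z
    have e : (fun m => c m * z ^ m) =
        fun n => ((n.factorial : ℂ))⁻¹ • (z - 0) ^ n • iteratedDeriv n f 0 := by
      funext m
      simp only [sub_zero, smul_eq_mul, hc]
      ring
    rw [e]
    exact Complex.hasSum_taylorSeries_of_entire hf 0 z
  refine ⟨c, fun ρ hρ => ?_, fun z => (h z).tsum_eq.symm⟩
  have h1 := summable_norm_iff.2 (h (ρ : ℂ)).summable
  refine h1.congr fun m => ?_
  rw [norm_mul, norm_pow, Complex.norm_real, Real.norm_of_nonneg hρ.le]

/-- The coefficients of the solution. -/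
noncomputable def co {n : ℕ} (A : ℕ → Matrix (Fin n) (Fin n) ℂ) : ℕ → Matrix (Fin n) (Fin n) ℂ
  | 0 => 1
  | m + 1 => ((m : ℂ) + 1)⁻¹ • ∑ l : Fin (m + 1), A l * co A (m - l)
termination_by m => m
decreasing_by omega

theorem co_succ {n : ℕ} (A : ℕ → Matrix (Fin n) (Fin n) ℂ) (m : ℕ) (i j : Fin n) :
    ((m : ℂ) + 1) * co A (m + 1) i j =
      ∑ l ∈ Finset.range (m + 1), ∑ k, A l i k * co A (m - l) k j := by
  rw [co, Matrix.smul_apply, smul_eq_mul, ← mul_assoc, mul_inv_cancel₀ (Nat.cast_add_one_ne_zero m),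
    one_mul, Finset.sum_range, Matrix.sum_apply]
  rfl

theorem exists_sol (hE : Pool.Agent.Y377.IL.S_ENT) (n : ℕ) (A : Fin n → Fin n → ℂ → ℂ)
    (hA : ∀ i j, Differentiable ℂ (A i j)) : ∃ X : Fin n → Fin n → ℂ → ℂ,
      (∀ i j z, HasDerivAt (X i j) (∑ k, A i k z * X k j z) z) ∧
      ∀ i j, X i j 0 = if i = j then 1 else 0 := by
  choose a ha1 ha2 using fun i j => exists_coeff (hA i j)
  set B : ℕ → Matrix (Fin n) (Fin n) ℂ := fun m i j => a i j m with hB
  have hX : ∀ i j, Ent (fun m => co B m i j) := by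
    intro i j ρ hρ
    exact hE n B (fun m i => co B m i j) (fun ρ hρ i j => ha1 i j ρ hρ)
      (fun m i => co_succ B m i j) ρ hρ i
  refine ⟨fun i j => ps (fun m => co B m i j), fun i j z => ?_, fun i j => ?_⟩
  · have h1 := (hX i j).hasDerivAt z
    have h2 : ps (fun m => ((m : ℂ) + 1) * co B (m + 1) i j) z =
        ∑ k, A i k z * ps (fun m => co B m k j) z := by
      have h3 : ∀ k, A i k z * ps (fun m => co B m k j) z = ∑' m, ∑ l ∈ Finset.range (m + 1),
          (a i k l * z ^ l) * (co B (m - l) k j * z ^ (m - l)) := by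
        intro k
        rw [ha2]
        exact tsum_mul_tsum_eq_tsum_sum_range_of_summable_norm ((ha1 i k).norm z)
          ((hX k j).norm z)
      have h4 : ∀ k, Summable fun m => ∑ l ∈ Finset.range (m + 1),
          (a i k l * z ^ l) * (co B (m - l) k j * z ^ (m - l)) := fun k =>
        (summable_norm_sum_mul_range_of_summable_norm ((ha1 i k).norm z)
          ((hX k j).norm z)).of_norm
      simp_rw [h3]
      rw [← Summable.tsum_finsetSum fun k _ => h4 k]
      unfold ps
      refine tsum_congr fun m => ?_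
      show (((m : ℂ) + 1) * co B (m + 1) i j) * z ^ m = _
      rw [co_succ, Finset.sum_comm, Finset.sum_mul]
      refine Finset.sum_congr rfl fun k _ => ?_
      rw [Finset.sum_mul]
      refine Finset.sum_congr rfl fun l hl => ?_
      have hl' : l ≤ m := by
        have := Finset.mem_range.1 hl
        omega
      have h5 : z ^ m = z ^ l * z ^ (m - l) := by rw [← pow_add, Nat.add_sub_cancel' hl']
      rw [h5]
      simp only [hB]
      ring
    rw [← h2]
    exact h1
  · show (∑' m, co B m i j * (0 : ℂ) ^ m) = _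
    rw [tsum_eq_single 0]
    · rw [co, pow_zero, mul_one, Matrix.one_apply]
    · intro m hm
      rw [zero_pow hm, mul_zero]

theorem t_FUND : Pool.Agent.Y377.IL.S_ENT → Pool.Agent.Y377.IL.S_FUND := by
  intro hE n A hA
  obtain ⟨X, hX, hX0⟩ := exists_sol hE n A hA
  obtain ⟨W, hW, hW0⟩ := exists_sol hE n (fun i j z => - A j i z) (fun i j => (hA j i).neg)
  set Y : Fin n → Fin n → ℂ → ℂ := fun i j => W j i with hY
  have hYd : ∀ i j z, HasDerivAt (Y i j) (-∑ k, Y i k z * A k j z) z := by
    intro i j z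
    have := hW j i z
    rw [← Finset.sum_neg_distrib]
    convert this using 2
    ring
  have hprod : ∀ (y y' : Fin n → ℂ → ℂ), (∀ i z, HasDerivAt (y i) (y' i z) z) →
      (∀ i z, y' i z = ∑ k, A i k z * y k z) → ∀ i z, ∑ k, Y i k z * y k z =
        ∑ k, Y i k 0 * y k 0 := by
    intro y y' h1 h2 i z
    have h3 : ∀ z, HasDerivAt (fun z => ∑ k, Y i k z * y k z) 0 z := by
      intro z
      have h4 : HasDerivAt (fun z => ∑ k, Y i k z * y k z)
          (∑ k, ((-∑ l, Y i l z * A l k z) * y k z + Y i k z * y' k z)) z :=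
        HasDerivAt.fun_sum fun k _ => (hYd i k z).mul (h1 k z)
      have h5 : ∑ k, ((-∑ l, Y i l z * A l k z) * y k z + Y i k z * y' k z) = 0 := by
        rw [Finset.sum_add_distrib]
        simp only [h2, neg_mul, Finset.sum_neg_distrib, Finset.sum_mul, Finset.mul_sum]
        rw [Finset.sum_comm, neg_add_eq_zero]
        refine Finset.sum_congr rfl fun l _ => Finset.sum_congr rfl fun k _ => ?_
        ring
      rw [h5] at h4
      exact h4
    exact is_const_of_deriv_eq_zero (fun z => (h3 z).differentiableAt) (fun z => (h3 z).deriv) z 0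
  have hYX : ∀ i j z, ∑ k, Y i k z * X k j z = if i = j then 1 else 0 := by
    intro i j z
    rw [hprod (fun k => X k j) (fun k z => ∑ l, A k l z * X l j z) (fun k z => hX k j z)
      (fun _ _ => rfl) i z]
    simp only [hX0, hY, hW0]
    simp only [ite_mul, one_mul, zero_mul, Finset.sum_ite_eq', Finset.mem_univ, if_true]
  have hXY : ∀ i j z, ∑ k, X i k z * Y k j z = if i = j then 1 else 0 := by
    intro i j z
    have h1 : (Matrix.of fun i j => Y i j z) * (Matrix.of fun i j => X i j z) = 1 := by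
      ext i j
      rw [Matrix.mul_apply, Matrix.one_apply]
      exact hYX i j z
    have h2 : ((Matrix.of fun i j => X i j z) * (Matrix.of fun i j => Y i j z)) i j =
        (1 : Matrix (Fin n) (Fin n) ℂ) i j := by rw [mul_eq_one_comm.1 h1]
    rw [Matrix.mul_apply, Matrix.one_apply] at h2
    exact h2
  refine ⟨X, Y, fun i j z => (hX i j z).differentiableAt, fun i j z =>
    (hYd i j z).differentiableAt, hXY, fun i j z => (hX i j z).deriv, ?_⟩
  intro y hy hy'
  refine ⟨fun i => ∑ k, Y i k 0 * y k 0, fun i z => ?_⟩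
  have h1 := hprod y (fun i z => deriv (y i) z) (fun i z => (hy i z).hasDerivAt) hy'
  simp_rw [← fun i => h1 i z, Finset.mul_sum]
  rw [Finset.sum_comm]
  have h2 : ∀ l, ∑ k, X i k z * (Y k l z * y l z) = (if i = l then 1 else 0) * y l z := by
    intro l
    rw [← hXY i l z, Finset.sum_mul]
    refine Finset.sum_congr rfl fun k _ => ?_
    ring
  simp_rw [h2]
  simp

end Pool.Agent.Y592.IL
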