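import Pool.Agent.Y377.IL.Stm

/-!
# Convergence of the formal solutions of linear systems with entire coefficients
-/

set_option autoImplicit false

namespace Pool.Agent.Y592.IL

theorem t_ENT : Pool.Agent.Y377.IL.S_ENT := by
  intro n A s hA hs ρ hρ i
  set σ : ℝ := 2 * ρ with hσ
  have hσ0 : 0 < σ := by positivity
  set a : ℕ → ℝ := fun l => ∑ i, ∑ j, ‖A l i j‖ with ha
  set t : ℕ → ℝ := fun m => ∑ i, ‖s m i‖ with ht
  have ha0 : ∀ l, 0 ≤ a l := fun l => Finset.sum_nonneg fun i _ => Finset.sum_nonneg fun j _ =>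
    norm_nonneg _
  have ht0 : ∀ m, 0 ≤ t m := fun m => Finset.sum_nonneg fun i _ => norm_nonneg _
  have hasum : Summable fun l => a l * σ ^ l := by
    have : (fun l => a l * σ ^ l) = fun l => ∑ i, ∑ j, ‖A l i j‖ * σ ^ l := by
      funext l
      rw [ha]
      simp only [Finset.sum_mul]
    rw [this]
    exact summable_sum fun i _ => summable_sum fun j _ => hA σ hσ0 i j
  have hrec : ∀ m : ℕ, ((m : ℝ) + 1) * t (m + 1) ≤ ∑ l ∈ Finset.range (m + 1), a l * t (m - l) := by
    intro m
    have h1 : ((m : ℝ) + 1) * t (m + 1) = ∑ i, ‖((m : ℂ) + 1) * s (m + 1) i‖ := by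
      rw [ht, Finset.mul_sum]
      refine Finset.sum_congr rfl fun i _ => ?_
      rw [norm_mul]
      congr 1
      have : ((m : ℂ) + 1) = (((m : ℝ) + 1 : ℝ) : ℂ) := by push_cast; ring
      rw [this, Complex.norm_real, Real.norm_of_nonneg (by positivity)]
    rw [h1]
    calc ∑ i, ‖((m : ℂ) + 1) * s (m + 1) i‖
        ≤ ∑ i, ∑ l ∈ Finset.range (m + 1), ∑ j, ‖A l i j‖ * t (m - l) := by
          refine Finset.sum_le_sum fun i _ => ?_
          rw [hs]
          refine (norm_sum_le _ _).trans (Finset.sum_le_sum fun l _ => ?_)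
          refine (norm_sum_le _ _).trans (Finset.sum_le_sum fun j _ => ?_)
          rw [norm_mul]
          refine mul_le_mul_of_nonneg_left ?_ (norm_nonneg _)
          exact Finset.single_le_sum (f := fun j => ‖s (m - l) j‖) (fun j _ => norm_nonneg _)
            (Finset.mem_univ j)
      _ = ∑ l ∈ Finset.range (m + 1), a l * t (m - l) := by
          rw [Finset.sum_comm]
          refine Finset.sum_congr rfl fun l _ => ?_
          rw [ha]
          simp only [Finset.sum_mul]
  set u : ℕ → ℝ := fun m => t m * σ ^ m with hu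
  have hu0 : ∀ m, 0 ≤ u m := fun m => mul_nonneg (ht0 m) (by positivity)
  set S : ℝ := σ * ∑' l, a l * σ ^ l with hS
  have hurec : ∀ m : ℕ, ((m : ℝ) + 1) * u (m + 1) ≤
      σ * ∑ l ∈ Finset.range (m + 1), (a l * σ ^ l) * u (m - l) := by
    intro m
    have h1 := mul_le_mul_of_nonneg_right (hrec m) (show 0 ≤ σ ^ (m + 1) by positivity)
    have h2 : ((m : ℝ) + 1) * u (m + 1) = ((m : ℝ) + 1) * t (m + 1) * σ ^ (m + 1) := by
      rw [hu]; ring
    rw [h2]
    refine h1.trans (le_of_eq ?_)
    rw [Finset.sum_mul, Finset.mul_sum]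
    refine Finset.sum_congr rfl fun l hl => ?_
    have hl' : l ≤ m := by
      have := Finset.mem_range.1 hl
      omega
    have h3 : σ ^ (m + 1) = σ * (σ ^ l * σ ^ (m - l)) := by
      rw [← pow_add, Nat.add_sub_cancel' hl', pow_succ]
      ring
    rw [h3, hu]
    ring
  obtain ⟨m0, hm0⟩ := exists_nat_ge S
  set C : ℝ := ∑ m ∈ Finset.range (m0 + 1), u m with hC
  have hC0 : 0 ≤ C := Finset.sum_nonneg fun m _ => hu0 m
  have key : ∀ m, u m ≤ C := by
    intro m
    induction m using Nat.strong_induction_on with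
    | _ m ih =>
      by_cases hm : m < m0 + 1
      · exact Finset.single_le_sum (f := u) (fun m _ => hu0 m) (Finset.mem_range.2 hm)
      · obtain ⟨k, rfl⟩ : ∃ k, m = k + 1 := ⟨m - 1, by omega⟩
        have hk : m0 ≤ k := by omega
        have h1 := hurec k
        have h2 : σ * ∑ l ∈ Finset.range (k + 1), (a l * σ ^ l) * u (k - l) ≤ S * C := by
          rw [hS, mul_assoc σ (∑' l, a l * σ ^ l) C]
          refine mul_le_mul_of_nonneg_left ?_ hσ0.le
          calc ∑ l ∈ Finset.range (k + 1), (a l * σ ^ l) * u (k - l)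
              ≤ ∑ l ∈ Finset.range (k + 1), (a l * σ ^ l) * C := by
                refine Finset.sum_le_sum fun l hl => ?_
                exact mul_le_mul_of_nonneg_left (ih (k - l) (by omega))
                  (mul_nonneg (ha0 l) (by positivity))
            _ = (∑ l ∈ Finset.range (k + 1), (a l * σ ^ l)) * C := by rw [Finset.sum_mul]
            _ ≤ (∑' l, a l * σ ^ l) * C := by
                refine mul_le_mul_of_nonneg_right ?_ hC0
                exact hasum.sum_le_tsum _ fun l _ => mul_nonneg (ha0 l) (by positivity)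
        have h3 : S * C ≤ ((k : ℝ) + 1) * C := by
          refine mul_le_mul_of_nonneg_right ?_ hC0
          have : (m0 : ℝ) ≤ k := by exact_mod_cast hk
          linarith
        have h4 : ((k : ℝ) + 1) * u (k + 1) ≤ ((k : ℝ) + 1) * C := h1.trans (h2.trans h3)
        exact le_of_mul_le_mul_left h4 (by positivity)
  refine Summable.of_nonneg_of_le (fun m => by positivity) (fun m => ?_)
    ((summable_geometric_two).mul_left C)
  have h1 : ‖s m i‖ ≤ t m := Finset.single_le_sum (f := fun j => ‖s m j‖)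
    (fun j _ => norm_nonneg _) (Finset.mem_univ i)
  have h2 : t m * ρ ^ m = u m * (1 / 2) ^ m := by
    rw [hu, hσ]
    simp only [mul_pow, one_div, inv_pow]
    field_simp
  calc ‖s m i‖ * ρ ^ m ≤ t m * ρ ^ m := mul_le_mul_of_nonneg_right h1 (by positivity)
    _ = u m * (1 / 2) ^ m := h2
    _ ≤ C * (1 / 2) ^ m := mul_le_mul_of_nonneg_right (key m) (by positivity)

end Pool.Agent.Y592.IL
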